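import Mathlib

/-!
# MP_e6b5d0_co : bounded n-Cayley property for two-ended vertex-transitive graphs

We disprove Q1: for `k = 23` and every `n` there is a connected `23`-regular vertex-transitive
graph with exactly two ends that is not `n`-Cayley.
-/

namespace Pool.Agent.Results.MP_e6b5d0_co.UnboundedCayley

/-! ### The notions of the problem -/

section defs

variable {V : Type*} (G : SimpleGraph V)

/-- A ray of `G`: a one-way infinite path, given by an injective sequence of vertices with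
consecutive vertices adjacent. -/
def Ray : Type _ := {r : ℕ → V // Function.Injective r ∧ ∀ n, G.Adj (r n) (r (n + 1))}

/-- Two rays are equivalent when no finite vertex set separates their tails: for every finite set
`S` there are tails of the two rays avoiding `S` that are joined by a walk avoiding `S`. -/
def RayEquiv (r s : Ray G) : Prop :=
  ∀ S : Finset V, ∃ m n : ℕ, (∀ k, m ≤ k → r.1 k ∉ S) ∧ (∀ k, n ≤ k → s.1 k ∉ S) ∧
    ∃ p : G.Walk (r.1 m) (s.1 n), ∀ x ∈ p.support, x ∉ S

variable {G}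

theorem ray_walk (r : Ray G) (a : ℕ) : ∀ d : ℕ, ∃ p : G.Walk (r.1 a) (r.1 (a + d)),
    ∀ x ∈ p.support, ∃ k, a ≤ k ∧ x = r.1 k := by
  intro d
  induction d with
  | zero =>
    refine ⟨SimpleGraph.Walk.nil, fun x hx => ?_⟩
    simp only [SimpleGraph.Walk.support_nil, List.mem_singleton] at hx
    exact ⟨a, le_rfl, hx⟩
  | succ d ih =>
    obtain ⟨p, hp⟩ := ih
    refine ⟨p.concat (r.2.2 (a + d)), ?_⟩
    intro x hx
    rw [SimpleGraph.Walk.support_concat, List.mem_append] at hx
    rcases hx with hx | hx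
    · exact hp x hx
    · simp only [List.mem_singleton] at hx
      exact ⟨a + d + 1, by omega, hx⟩

theorem ray_walk' (r : Ray G) (a b m : ℕ) (ha : m ≤ a) (hb : m ≤ b) :
    ∃ p : G.Walk (r.1 a) (r.1 b), ∀ x ∈ p.support, ∃ k, m ≤ k ∧ x = r.1 k := by
  rcases Nat.le_total a b with h | h
  · obtain ⟨d, rfl⟩ := Nat.exists_eq_add_of_le h
    obtain ⟨p, hp⟩ := ray_walk r a d
    refine ⟨p, fun x hx => ?_⟩
    obtain ⟨k, hk, hk'⟩ := hp x hx
    exact ⟨k, by omega, hk'⟩
  · obtain ⟨d, rfl⟩ := Nat.exists_eq_add_of_le h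
    obtain ⟨p, hp⟩ := ray_walk r b d
    refine ⟨p.reverse, fun x hx => ?_⟩
    rw [SimpleGraph.Walk.support_reverse, List.mem_reverse] at hx
    obtain ⟨k, hk, hk'⟩ := hp x hx
    exact ⟨k, by omega, hk'⟩

theorem ray_leaves (r : Ray G) (S : Set V) (hS : S.Finite) : ∃ m, ∀ k, m ≤ k → r.1 k ∉ S := by
  have hfin : (r.1 ⁻¹' S).Finite := hS.preimage r.2.1.injOn
  obtain ⟨m, hm⟩ := hfin.bddAbove
  refine ⟨m + 1, fun k hk hkS => ?_⟩
  have := hm (show k ∈ r.1 ⁻¹' S from hkS)
  omega

variable (G)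

/-- Equivalence of rays is an equivalence relation. -/
def raySetoid : Setoid (Ray G) where
  r := RayEquiv G
  iseqv := by
    refine ⟨?_, ?_, ?_⟩
    · intro r S
      obtain ⟨m, hm⟩ := ray_leaves r (S : Set V) S.finite_toSet
      refine ⟨m, m, hm, hm, SimpleGraph.Walk.nil, ?_⟩
      intro x hx
      simp only [SimpleGraph.Walk.support_nil, List.mem_singleton] at hx
      subst hx
      exact hm m le_rfl
    · intro r s h S
      obtain ⟨m, n, h1, h2, p, hp⟩ := h S
      refine ⟨n, m, h2, h1, p.reverse, ?_⟩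
      intro x hx
      rw [SimpleGraph.Walk.support_reverse, List.mem_reverse] at hx
      exact hp x hx
    · intro r s t h1 h2 S
      obtain ⟨m, n, a1, a2, p, hp⟩ := h1 S
      obtain ⟨n', l, b1, b2, q, hq⟩ := h2 S
      obtain ⟨w, hw⟩ := ray_walk' s n n' (min n n') (min_le_left _ _) (min_le_right _ _)
      have hs : ∀ k, min n n' ≤ k → s.1 k ∉ S := by
        intro k hk
        rcases min_le_iff.mp hk with h | h
        · exact a2 k h
        · exact b1 k h
      refine ⟨m, l, a1, b2, (p.append w).append q, ?_⟩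
      intro x hx
      rw [SimpleGraph.Walk.mem_support_append_iff, SimpleGraph.Walk.mem_support_append_iff] at hx
      rcases hx with (hx | hx) | hx
      · exact hp x hx
      · obtain ⟨k, hk, rfl⟩ := hw x hx
        exact hs k hk
      · exact hq x hx

/-- The ends of `G`. -/
def Ends : Type _ := Quotient (raySetoid G)

/-- `G` has exactly two ends. -/
def TwoEnded : Prop := Nat.card (Ends G) = 2

/-- `G` is vertex-transitive. -/
def VertexTransitive : Prop := ∀ u v : V, ∃ g : G ≃g G, g u = v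

/-- Every vertex has exactly `k` neighbours. -/
def Regular (k : ℕ) : Prop := ∀ v : V, (G.neighborSet v).encard = k

/-- `G` is `n`-Cayley: a subgroup of the automorphism group acts freely on the vertices with
exactly `n` orbits. -/
def IsNCayley (n : ℕ) : Prop :=
  ∃ Γ : Subgroup (G ≃g G), (∀ g ∈ Γ, ∀ v : V, g v = v → g = 1) ∧
    ∃ f : V → Fin n, Function.Surjective f ∧ ∀ v w : V, f v = f w ↔ ∃ g ∈ Γ, g v = w

end defs

/-! ### The Petersen graph -/

/-- The vertex set of the Petersen graph. -/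
abbrev X : Type := ZMod 5 × Bool

/-- The Petersen graph. -/
def P : SimpleGraph X where
  Adj x y := (x.2 = false ∧ y.2 = false ∧ (y.1 = x.1 + 1 ∨ x.1 = y.1 + 1)) ∨
    (x.2 = true ∧ y.2 = true ∧ (y.1 = x.1 + 2 ∨ x.1 = y.1 + 2)) ∨ (x.2 ≠ y.2 ∧ x.1 = y.1)
  symm := ⟨by
    rintro x y (⟨h1, h2, h3⟩ | ⟨h1, h2, h3⟩ | ⟨h1, h2⟩)
    · exact Or.inl ⟨h2, h1, h3.symm⟩
    · exact Or.inr (Or.inl ⟨h2, h1, h3.symm⟩)
    · exact Or.inr (Or.inr ⟨h1.symm, h2.symm⟩)⟩
  loopless := ⟨by
    rintro x (⟨h1, h2, h3⟩ | ⟨h1, h2, h3⟩ | ⟨h1, h2⟩)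
    · revert h3; generalize x.1 = a; revert a; decide
    · revert h3; generalize x.1 = a; revert a; decide
    · exact h1 rfl⟩

instance : DecidableRel P.Adj := fun x y => by
  unfold P
  infer_instance

theorem P_card (x : X) : (Finset.univ.filter (fun y => P.Adj x y)).card = 3 := by
  revert x
  decide +kernel

theorem P_unique : ∀ x y w w' : X, x ≠ y → P.Adj x w → P.Adj y w → P.Adj x w' → P.Adj y w' →
    w = w' := by
  decide +kernel

theorem P_common : ∀ x y : X, x ≠ y → ¬ P.Adj x y → ∃ w, P.Adj x w ∧ P.Adj y w := by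
  decide +kernel

theorem P_noTriangle : ∀ x y z : X, P.Adj x y → P.Adj y z → ¬ P.Adj x z := by
  decide +kernel

theorem P_other : ∀ x y : X, ∃ u, P.Adj x u ∧ u ≠ y := by
  decide +kernel

/-- An involutory automorphism of the Petersen graph fixes a vertex. -/
theorem P_fixed (γ : X → X) (h2 : ∀ x, γ (γ x) = x)
    (hadj : ∀ x y, P.Adj x y → P.Adj (γ x) (γ y)) : ∃ x, γ x = x := by
  by_contra hcon
  push Not at hcon
  -- a vertex is adjacent to its image
  have h1 : ∀ x, P.Adj x (γ x) := by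
    intro x
    by_contra hx
    obtain ⟨w, hw1, hw2⟩ := P_common x (γ x) (hcon x).symm hx
    have hw3 : P.Adj x (γ w) := by
      have := hadj _ _ hw2
      rwa [h2] at this
    have hw4 : P.Adj (γ x) (γ w) := hadj _ _ hw1
    exact hcon w (P_unique x (γ x) _ _ (hcon x).symm hw3 hw4 hw1 hw2)
  let x : X := (0, false)
  obtain ⟨u, hu1, hu2⟩ := P_other x (γ x)
  have h3 : P.Adj (γ x) (γ u) := hadj _ _ hu1
  have h4 : P.Adj u (γ u) := h1 u
  have h5 : x ≠ γ u := by
    intro h
    apply hu2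
    rw [h, h2]
  exact hu2 (P_unique x (γ u) u (γ x) h5 hu1 h4.symm (h1 x) h3.symm)

/-- The Petersen graph is vertex-transitive. -/
theorem P_transitive (x y : X) : ∃ g : P ≃g P, g x = y := by
  have rot : ∀ c : ZMod 5, ∃ g : P ≃g P, ∀ z : X, g z = (z.1 + c, z.2) := by
    intro c
    refine ⟨⟨⟨fun z => (z.1 + c, z.2), fun z => (z.1 - c, z.2), ?_, ?_⟩, ?_⟩, ?_⟩
    · intro z; simp
    · intro z; simp
    · intro a b
      revert c a b
      decide +kernel
    · intro z; rfl
  have sw : ∃ g : P ≃g P, ∀ z : X, g z = (2 * z.1, !z.2) := by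
    refine ⟨⟨⟨fun z => (2 * z.1, !z.2), fun z => (3 * z.1, !z.2), ?_, ?_⟩, ?_⟩, ?_⟩
    · intro z; revert z; decide +kernel
    · intro z; revert z; decide +kernel
    · intro a b
      revert a b
      decide +kernel
    · intro z; rfl
  by_cases hxy : x.2 = y.2
  · obtain ⟨g, hg⟩ := rot (y.1 - x.1)
    refine ⟨g, ?_⟩
    rw [hg]
    ext
    · simp
    · simp [hxy]
  · obtain ⟨s, hs⟩ := sw
    obtain ⟨g, hg⟩ := rot (y.1 - 2 * x.1)
    refine ⟨s.trans g, ?_⟩
    show g (s x) = y
    rw [hs, hg]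
    refine Prod.ext (by simp) ?_
    simp only
    cases hx : x.2 <;> cases hy : y.2 <;> simp_all

/-! ### The graph -/

/-- The vertices: a layer and a word of length `t+1` over the Petersen graph. -/
abbrev Vt (t : ℕ) : Type := ℤ × (Fin (t + 1) → X)

variable {t : ℕ}

/-- Arcs between consecutive layers. -/
def Arc (u v : Vt t) : Prop := v.1 = u.1 + 1 ∧ Fin.tail u.2 = Fin.init v.2

/-- Edges within a layer. -/
def Tw (u v : Vt t) : Prop := v.1 = u.1 ∧ Fin.tail u.2 = Fin.tail v.2 ∧ P.Adj (u.2 0) (v.2 0)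

theorem Tw.symm {u v : Vt t} (h : Tw u v) : Tw v u := ⟨h.1.symm, h.2.1.symm, h.2.2.symm⟩

/-- The graph. -/
def Gt (t : ℕ) : SimpleGraph (Vt t) where
  Adj u v := Arc u v ∨ Arc v u ∨ Tw u v
  symm := ⟨by
    rintro u v (h | h | h)
    · exact Or.inr (Or.inl h)
    · exact Or.inl h
    · exact Or.inr (Or.inr h.symm)⟩
  loopless := ⟨by
    rintro u (h | h | h)
    · have := h.1; omega
    · have := h.1; omega
    · exact P.loopless.irrefl _ h.2.2⟩

/-- forward neighbour -/
def fw (u : Vt t) (y : X) : Vt t := (u.1 + 1, Fin.snoc (α := fun _ => X) (Fin.tail u.2) y)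

/-- backward neighbour -/
def bw (u : Vt t) (y : X) : Vt t := (u.1 - 1, Fin.cons (α := fun _ => X) y (Fin.init u.2))

/-- neighbour in the layer -/
def sw (u : Vt t) (y : X) : Vt t := (u.1, Fin.cons (α := fun _ => X) y (Fin.tail u.2))

theorem arc_fw (u : Vt t) (y : X) : Arc u (fw u y) :=
  ⟨rfl, (Fin.init_snoc (α := fun _ => X) _ _).symm⟩

theorem arc_bw (u : Vt t) (y : X) : Arc (bw u y) u := by
  refine ⟨by simp [bw], ?_⟩
  exact Fin.tail_cons (α := fun _ => X) _ _

theorem tw_sw (u : Vt t) (y : X) (h : P.Adj (u.2 0) y) : Tw u (sw u y) :=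
  ⟨rfl, (Fin.tail_cons (α := fun _ => X) _ _).symm, by simpa [sw] using h⟩

theorem arc_iff (u v : Vt t) : Arc u v ↔ ∃ y, v = fw u y := by
  constructor
  · rintro ⟨h1, h2⟩
    refine ⟨v.2 (Fin.last t), Prod.ext h1 ?_⟩
    simp only [fw]
    rw [h2]
    exact (Fin.snoc_init_self (α := fun _ => X) _).symm
  · rintro ⟨y, rfl⟩
    exact arc_fw u y

theorem arc_iff' (u v : Vt t) : Arc v u ↔ ∃ y, v = bw u y := by
  constructor
  · rintro ⟨h1, h2⟩
    refine ⟨v.2 0, Prod.ext (by simp [bw, h1]) ?_⟩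
    simp only [bw]
    rw [← h2]
    exact (Fin.cons_self_tail (α := fun _ => X) _).symm
  · rintro ⟨y, rfl⟩
    exact arc_bw u y

theorem tw_iff (u v : Vt t) : Tw u v ↔ ∃ y, P.Adj (u.2 0) y ∧ v = sw u y := by
  constructor
  · rintro ⟨h1, h2, h3⟩
    refine ⟨v.2 0, h3, Prod.ext h1 ?_⟩
    simp only [sw]
    rw [h2]
    exact (Fin.cons_self_tail (α := fun _ => X) _).symm
  · rintro ⟨y, h, rfl⟩
    exact tw_sw u y h

theorem fw_inj (u : Vt t) : Function.Injective (fw u) := by
  intro y z h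
  have := congrArg (fun v : Vt t => v.2 (Fin.last t)) h
  simpa [fw] using this

theorem bw_inj (u : Vt t) : Function.Injective (bw u) := by
  intro y z h
  have := congrArg (fun v : Vt t => v.2 0) h
  simpa [bw] using this

theorem sw_inj (u : Vt t) : Function.Injective (sw u) := by
  intro y z h
  have := congrArg (fun v : Vt t => v.2 0) h
  simpa [sw] using this

theorem neighborSet_eq (u : Vt t) : (Gt t).neighborSet u =
    Set.range (fw u) ∪ (Set.range (bw u) ∪ (sw u) '' {y | P.Adj (u.2 0) y}) := by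
  ext v
  simp only [SimpleGraph.mem_neighborSet, Gt, Set.mem_union, Set.mem_range, Set.mem_image,
    Set.mem_ofPred_eq]
  rw [arc_iff, arc_iff', tw_iff]
  constructor
  · rintro (⟨y, h⟩ | ⟨y, h⟩ | ⟨y, h1, h⟩)
    · exact Or.inl ⟨y, h.symm⟩
    · exact Or.inr (Or.inl ⟨y, h.symm⟩)
    · exact Or.inr (Or.inr ⟨y, h1, h.symm⟩)
  · rintro (⟨y, h⟩ | ⟨y, h⟩ | ⟨y, h1, h⟩)
    · exact Or.inl ⟨y, h.symm⟩
    · exact Or.inr (Or.inl ⟨y, h.symm⟩)
    · exact Or.inr (Or.inr ⟨y, h1, h.symm⟩)

theorem encard_X : (Set.univ : Set X).encard = 10 := by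
  rw [Set.encard_univ, ENat.card_eq_coe_fintype_card]
  rfl

theorem encard_adj (x : X) : {y | P.Adj x y}.encard = 3 := by
  have : {y | P.Adj x y} = ((Finset.univ.filter (fun y => P.Adj x y) : Finset X) : Set X) := by
    ext y; simp
  rw [this, Set.encard_coe_eq_coe_finsetCard, P_card]
  rfl

theorem regular (t : ℕ) : Regular (Gt t) 23 := by
  intro u
  rw [neighborSet_eq]
  have d1 : Disjoint (Set.range (bw u)) ((sw u) '' {y | P.Adj (u.2 0) y}) := by
    rw [Set.disjoint_left]
    rintro _ ⟨y, rfl⟩ ⟨z, _, hz⟩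
    have := congrArg Prod.fst hz
    simp only [sw, bw] at this
    omega
  have d2 : Disjoint (Set.range (fw u)) (Set.range (bw u) ∪ (sw u) '' {y | P.Adj (u.2 0) y}) := by
    rw [Set.disjoint_left]
    rintro _ ⟨y, rfl⟩ (⟨z, hz⟩ | ⟨z, _, hz⟩)
    · have := congrArg Prod.fst hz
      simp only [fw, bw] at this
      omega
    · have := congrArg Prod.fst hz
      simp [fw, sw] at this
  rw [Set.encard_union_eq d2, Set.encard_union_eq d1, ← Set.image_univ, ← Set.image_univ,
    (fw_inj u).encard_image, (bw_inj u).encard_image, (sw_inj u).encard_image, encard_X,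
    encard_adj]
  norm_num

/-! ### Rigidity -/

section rigid

/-- common neighbours -/
def cn (u v : Vt t) : Set (Vt t) := (Gt t).neighborSet u ∩ (Gt t).neighborSet v

theorem tw_cn (u v : Vt t) (h : Tw u v) : 10 ≤ (cn u v).encard := by
  have h1 : Set.range (fw u) ⊆ cn u v := by
    rintro _ ⟨y, rfl⟩
    refine ⟨Or.inl (arc_fw u y), Or.inl ?_⟩
    have h2 : fw u y = fw v y := by
      simp only [fw]
      rw [h.1, h.2.1]
    rw [h2]
    exact arc_fw v y
  calc (10 : ℕ∞) = (Set.range (fw u)).encard := by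
        rw [← Set.image_univ, (fw_inj u).encard_image, encard_X]
    _ ≤ _ := Set.encard_le_encard h1

theorem init_zero (ht : 1 ≤ t) (u v : Vt t) (h : Fin.init u.2 = Fin.init v.2) :
    u.2 0 = v.2 0 := by
  have := congrFun h ⟨0, ht⟩
  simpa [Fin.init] using this

theorem arc_cn (ht : 1 ≤ t) (u v : Vt t) (h : Arc u v) : (cn u v).encard ≤ 3 := by
  have h1 : cn u v ⊆ (sw u) '' {y | P.Adj (u.2 0) y} := by
    rintro w ⟨hw1, hw2⟩
    simp only [SimpleGraph.mem_neighborSet, Gt] at hw1 hw2
    have hl := h.1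
    rcases hw1 with hw1 | hw1 | hw1
    · have l1 := hw1.1
      rcases hw2 with hw2 | hw2 | hw2
      · have l2 := hw2.1
        omega
      · have l2 := hw2.1
        omega
      · exfalso
        have h3 : Fin.init w.2 = Fin.init v.2 := by rw [← hw1.2, h.2]
        have h4 := init_zero ht w v h3
        have h5 := hw2.2.2
        rw [h4] at h5
        exact P.loopless.irrefl _ h5
    · have l1 := hw1.1
      rcases hw2 with hw2 | hw2 | hw2 <;> have l2 := hw2.1 <;> omega
    · obtain ⟨y, hy, rfl⟩ := (tw_iff u w).mp hw1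
      exact ⟨y, hy, rfl⟩
  calc (cn u v).encard ≤ _ := Set.encard_le_encard h1
    _ = 3 := by rw [(sw_inj u).encard_image, encard_adj]
    _ ≤ 3 := le_rfl

theorem cn_iso (g : Gt t ≃g Gt t) (u v : Vt t) : (cn (g u) (g v)).encard = (cn u v).encard := by
  have : cn (g u) (g v) = g '' cn u v := by
    ext w
    constructor
    · rintro ⟨h1, h2⟩
      refine ⟨g.symm w, ⟨?_, ?_⟩, by simp⟩
      · rw [SimpleGraph.mem_neighborSet] at h1 ⊢
        rw [← g.map_adj_iff]
        simpa using h1
      · rw [SimpleGraph.mem_neighborSet] at h2 ⊢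
        rw [← g.map_adj_iff]
        simpa using h2
    · rintro ⟨w, ⟨h1, h2⟩, rfl⟩
      rw [SimpleGraph.mem_neighborSet] at h1 h2
      exact ⟨g.map_adj_iff.mpr h1, g.map_adj_iff.mpr h2⟩
  rw [this, g.injective.encard_image]

theorem cn_comm (u v : Vt t) : cn u v = cn v u := Set.inter_comm _ _

theorem iso_tw (ht : 1 ≤ t) (g : Gt t ≃g Gt t) (u v : Vt t) (h : Tw u v) : Tw (g u) (g v) := by
  have h1 : (Gt t).Adj (g u) (g v) := g.map_adj_iff.mpr (Or.inr (Or.inr h))
  have h2 : 10 ≤ (cn (g u) (g v)).encard := by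
    rw [cn_iso]
    exact tw_cn u v h
  rcases h1 with h1 | h1 | h1
  · have h3 := h2.trans (arc_cn ht _ _ h1)
    exact absurd h3 (by decide)
  · rw [cn_comm] at h2
    have h3 := h2.trans (arc_cn ht _ _ h1)
    exact absurd h3 (by decide)
  · exact h1

theorem iso_tw_iff (ht : 1 ≤ t) (g : Gt t ≃g Gt t) (u v : Vt t) : Tw (g u) (g v) ↔ Tw u v := by
  constructor
  · intro h
    have := iso_tw ht g.symm _ _ h
    simpa using this
  · exact iso_tw ht g u v

theorem exists_adj (x : X) : ∃ y, P.Adj x y := by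
  obtain ⟨u, hu, _⟩ := P_other x x
  exact ⟨u, hu⟩

theorem iso_arc (ht : 1 ≤ t) (g : Gt t ≃g Gt t) (u v : Vt t) (h : Arc u v) :
    Arc (g u) (g v) := by
  have h1 : (Gt t).Adj (g u) (g v) := g.map_adj_iff.mpr (Or.inl h)
  rcases h1 with h1 | h1 | h1
  · exact h1
  · exfalso
    obtain ⟨y, hy⟩ := exists_adj (u.2 0)
    have h2 : Tw u (sw u y) := tw_sw u y hy
    have h3 : Arc (sw u y) v := by
      refine ⟨h.1, ?_⟩
      rw [← h.2]
      exact h2.2.1.symm
    have h4 : Tw (g u) (g (sw u y)) := iso_tw ht g _ _ h2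
    have h5 : (Gt t).Adj (g (sw u y)) (g v) := g.map_adj_iff.mpr (Or.inl h3)
    have l1 := h1.1
    have l4 := h4.1
    rcases h5 with h5 | h5 | h5
    · have l5 := h5.1
      omega
    · have h6 : Fin.init (g u).2 = Fin.init (g (sw u y)).2 := by rw [← h1.2, h5.2]
      have h7 := init_zero ht _ _ h6
      have h8 := h4.2.2
      rw [← h7] at h8
      exact P.loopless.irrefl _ h8
    · have l5 := h5.1
      omega
  · exfalso
    have h2 := (iso_tw_iff ht g u v).mp h1
    have l1 := h.1
    have l2 := h2.1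
    omega

theorem agree (ht : 1 ≤ t) (g : Gt t ≃g Gt t) (d : ℕ) : ∀ u v : Vt t, u.1 = v.1 →
    (∀ j : Fin (t + 1), j.val + d ≤ t → u.2 j = v.2 j) →
    ∀ j : Fin (t + 1), j.val + d ≤ t → (g u).2 j = (g v).2 j := by
  induction d with
  | zero =>
    intro u v h1 h2 j _
    have : u = v := Prod.ext h1 (funext fun j => h2 j (by omega))
    rw [this]
  | succ d ih =>
    intro u v h1 h2 j hj
    have h3 := ih (bw u (0, false)) (bw v (0, false)) (by simp [bw, h1]) ?_
    · have hjt : j.val < t := by omega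
      have e1 := (iso_arc ht g _ _ (arc_bw u (0, false))).2
      have e2 := (iso_arc ht g _ _ (arc_bw v (0, false))).2
      have f1 := congrFun e1 ⟨j.val, hjt⟩
      have f2 := congrFun e2 ⟨j.val, hjt⟩
      have f3 := h3 (⟨j.val, hjt⟩ : Fin t).succ (by simp only [Fin.val_succ]; omega)
      simp only [Fin.tail, Fin.init] at f1 f2
      have hc : (⟨j.val, hjt⟩ : Fin t).castSucc = j := rfl
      rw [hc] at f1 f2
      rw [← f1, ← f2, f3]
    · intro k
      simp only [bw]
      refine Fin.cases ?_ (fun i => ?_) k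
      · intro _
        simp
      · intro hi
        simp only [Fin.cons_succ, Fin.init]
        apply h2
        simp only [Fin.val_succ] at hi
        simp only [Fin.val_castSucc]
        omega

/-- the local permutation in position `k` -/
def loc (g : Gt t ≃g Gt t) (k : ℤ) (x : X) : X := (g ((k, fun _ => x) : Vt t)).2 0

theorem apply_zero (ht : 1 ≤ t) (g : Gt t ≃g Gt t) (u : Vt t) :
    (g u).2 0 = loc g u.1 (u.2 0) := by
  unfold loc
  refine agree ht g t u (u.1, fun _ => u.2 0) rfl ?_ 0 (by simp)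
  intro j hj
  have : j = 0 := by
    apply Fin.ext
    simp only [Fin.val_zero]
    omega
  rw [this]

theorem apply_loc (ht : 1 ≤ t) (g : Gt t ≃g Gt t) (n : ℕ) : ∀ (hn : n < t + 1) (u : Vt t),
    (g u).2 ⟨n, hn⟩ = loc g (u.1 + n) (u.2 ⟨n, hn⟩) := by
  induction n with
  | zero =>
    intro hn u
    have := apply_zero ht g u
    simpa using this
  | succ n ih =>
    intro hn u
    have h1 := (iso_arc ht g _ _ (arc_fw u (0, false))).2
    have h2 := congrFun h1 ⟨n, by omega⟩
    simp only [Fin.tail, Fin.init] at h2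
    have h3 := ih (by omega) (fw u (0, false))
    have e1 : (⟨n, by omega⟩ : Fin t).succ = (⟨n + 1, hn⟩ : Fin (t + 1)) := rfl
    have e2 : (⟨n, by omega⟩ : Fin t).castSucc = (⟨n, by omega⟩ : Fin (t + 1)) := rfl
    rw [e1, e2] at h2
    rw [h2, h3]
    have h4 := congrFun (arc_fw u (0, false)).2 ⟨n, by omega⟩
    simp only [Fin.tail, Fin.init] at h4
    rw [e1, e2] at h4
    rw [← h4]
    congr 1
    simp only [fw]
    push_cast
    ring

theorem loc_adj (ht : 1 ≤ t) (g : Gt t ≃g Gt t) (k : ℤ) (x y : X) (h : P.Adj x y) :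
    P.Adj (loc g k x) (loc g k y) := by
  have h1 := iso_tw ht g ((k, fun _ => x) : Vt t) _ (tw_sw ((k, fun _ => x) : Vt t) y h)
  have h2 := h1.2.2
  rw [apply_zero ht g (sw _ _)] at h2
  simpa [sw, loc] using h2

/-- The shift of an automorphism. -/
theorem walk_shift (ht : 1 ≤ t) (g : Gt t ≃g Gt t) (u v : Vt t) (h : (Gt t).Adj u v) :
    (g v).1 - v.1 = (g u).1 - u.1 := by
  rcases h with h | h | h
  · have h1 := (iso_arc ht g _ _ h).1
    have h2 := h.1
    omega
  · have h1 := (iso_arc ht g _ _ h).1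
    have h2 := h.1
    omega
  · have h1 := (iso_tw ht g _ _ h).1
    have h2 := h.1
    omega

end rigid

/-! ### Walks -/

section walks

/-- the window of a bi-infinite sequence -/
def win (t : ℕ) (a : ℤ → X) (m : ℤ) : Vt t := (m, fun j => a (m + j))

theorem win_arc (a : ℤ → X) (m : ℤ) : Arc (win t a m) (win t a (m + 1)) := by
  refine ⟨rfl, ?_⟩
  funext j
  simp only [win, Fin.tail, Fin.init, Fin.val_succ, Fin.val_castSucc]
  congr 1
  push_cast
  ring

theorem win_walk (a : ℤ → X) (m : ℤ) (d : ℕ) : ∃ p : (Gt t).Walk (win t a m) (win t a (m + d)),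
    ∀ x ∈ p.support, m ≤ x.1 ∧ x.1 ≤ m + d := by
  induction d with
  | zero =>
    have : win t a (m + (0 : ℕ)) = win t a m := by simp
    rw [this]
    refine ⟨SimpleGraph.Walk.nil, fun x hx => ?_⟩
    simp only [SimpleGraph.Walk.support_nil, List.mem_singleton] at hx
    subst hx
    simp [win]
  | succ d ih =>
    obtain ⟨p, hp⟩ := ih
    have h1 : (Gt t).Adj (win t a (m + d)) (win t a (m + (d + 1 : ℕ))) := by
      have h2 := win_arc (t := t) a (m + d)
      have h3 : m + (d : ℤ) + 1 = m + ((d + 1 : ℕ) : ℤ) := by push_cast; ring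
      rw [h3] at h2
      exact Or.inl h2
    refine ⟨p.concat h1, fun x hx => ?_⟩
    rw [SimpleGraph.Walk.support_concat, List.mem_append] at hx
    rcases hx with hx | hx
    · have := hp x hx
      push_cast
      omega
    · simp only [List.mem_singleton] at hx
      subst hx
      simp only [win]
      push_cast
      omega

/-- Far apart layers are joined by monotone walks. -/
theorem up_walk (u v : Vt t) (h : u.1 + t + 1 ≤ v.1) : ∃ p : (Gt t).Walk u v,
    ∀ x ∈ p.support, u.1 ≤ x.1 ∧ x.1 ≤ v.1 := by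
  let a : ℤ → X := fun k =>
    if hk : 0 ≤ k - u.1 ∧ k - u.1 < t + 1 then u.2 ⟨(k - u.1).toNat, by omega⟩
    else if hk : 0 ≤ k - v.1 ∧ k - v.1 < t + 1 then v.2 ⟨(k - v.1).toNat, by omega⟩
    else (0, false)
  have hu : win t a u.1 = u := by
    refine Prod.ext rfl (funext fun j => ?_)
    have hj := j.2
    simp only [win, a]
    rw [dif_pos (by omega)]
    exact congrArg u.2 (Fin.ext (by show (u.1 + (j.val : ℤ) - u.1).toNat = j.val; omega))
  have hv : win t a v.1 = v := by
    refine Prod.ext rfl (funext fun j => ?_)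
    have hj := j.2
    simp only [win, a]
    rw [dif_neg (by omega), dif_pos (by omega)]
    exact congrArg v.2 (Fin.ext (by show (v.1 + (j.val : ℤ) - v.1).toNat = j.val; omega))
  obtain ⟨d, hd⟩ : ∃ d : ℕ, v.1 = u.1 + d := ⟨(v.1 - u.1).toNat, by omega⟩
  have hw := win_walk (t := t) a u.1 d
  rw [← hd, hu, hv] at hw
  exact hw

/-- Two vertices are joined by a walk staying above both. -/
theorem walk_above (u v : Vt t) : ∃ p : (Gt t).Walk u v,
    ∀ x ∈ p.support, min u.1 v.1 ≤ x.1 := by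
  let z : Vt t := (max u.1 v.1 + t + 1, fun _ => (0, false))
  have hz : z.1 = max u.1 v.1 + t + 1 := rfl
  obtain ⟨p, hp⟩ := up_walk u z (by omega)
  obtain ⟨q, hq⟩ := up_walk v z (by omega)
  refine ⟨p.append q.reverse, fun x hx => ?_⟩
  rw [SimpleGraph.Walk.mem_support_append_iff, SimpleGraph.Walk.support_reverse,
    List.mem_reverse] at hx
  rcases hx with hx | hx
  · exact le_trans (min_le_left _ _) (hp x hx).1
  · exact le_trans (min_le_right _ _) (hq x hx).1

/-- Two vertices are joined by a walk staying below both. -/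
theorem walk_below (u v : Vt t) : ∃ p : (Gt t).Walk u v,
    ∀ x ∈ p.support, x.1 ≤ max u.1 v.1 := by
  let z : Vt t := (min u.1 v.1 - t - 1, fun _ => (0, false))
  have hz : z.1 = min u.1 v.1 - t - 1 := rfl
  obtain ⟨p, hp⟩ := up_walk z u (by omega)
  obtain ⟨q, hq⟩ := up_walk z v (by omega)
  refine ⟨p.reverse.append q, fun x hx => ?_⟩
  rw [SimpleGraph.Walk.mem_support_append_iff, SimpleGraph.Walk.support_reverse,
    List.mem_reverse] at hx
  rcases hx with hx | hx
  · exact le_trans (hp x hx).2 (le_max_left _ _)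
  · exact le_trans (hq x hx).2 (le_max_right _ _)

theorem connected (t : ℕ) : (Gt t).Connected := by
  have : Nonempty (Vt t) := ⟨(0, fun _ => (0, false))⟩
  refine SimpleGraph.Connected.mk ?_
  intro u v
  obtain ⟨p, _⟩ := walk_above u v
  exact ⟨p⟩

/-- A walk avoiding layer `0` does not change sides. -/
theorem walk_sign {u v : Vt t} (p : (Gt t).Walk u v) (h : ∀ x ∈ p.support, x.1 ≠ 0) :
    0 < u.1 → 0 < v.1 := by
  induction p with
  | nil => exact id
  | cons hadj p ih =>
    intro hu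
    apply ih (fun x hx => h x (by
      rw [SimpleGraph.Walk.support_cons]
      exact List.mem_cons_of_mem _ hx))
    have h1 := h _ (by
      rw [SimpleGraph.Walk.support_cons]
      exact List.mem_cons_of_mem _ (SimpleGraph.Walk.start_mem_support p))
    rcases hadj with h2 | h2 | h2 <;> have h3 := h2.1 <;> omega

end walks

/-! ### Ends -/

section ends

theorem layers_finite (t : ℕ) (N : ℤ) : {v : Vt t | |v.1| ≤ N}.Finite := by
  have : {v : Vt t | |v.1| ≤ N} = Set.Icc (-N) N ×ˢ (Set.univ : Set (Fin (t + 1) → X)) := by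
    ext v
    simp [abs_le]
  rw [this]
  exact (Set.finite_Icc _ _).prod Set.finite_univ

/-- rays going up -/
def Pos (r : Ray (Gt t)) : Prop := ∃ m, ∀ k, m ≤ k → 0 < (r.1 k).1

/-- rays going down -/
def Neg (r : Ray (Gt t)) : Prop := ∃ m, ∀ k, m ≤ k → (r.1 k).1 < 0

theorem ray_step (r : Ray (Gt t)) (k : ℕ) :
    (r.1 (k + 1)).1 ≤ (r.1 k).1 + 1 ∧ (r.1 k).1 ≤ (r.1 (k + 1)).1 + 1 := by
  rcases r.2.2 k with h | h | h <;> have := h.1 <;> omega

theorem ray_eventually (r : Ray (Gt t)) (N : ℤ) : ∃ m, ∀ k, m ≤ k → N < |(r.1 k).1| := by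
  obtain ⟨m, hm⟩ := ray_leaves r _ (layers_finite t N)
  refine ⟨m, fun k hk => ?_⟩
  have := hm k hk
  simpa using this

theorem pos_or_neg (r : Ray (Gt t)) : Pos r ∨ Neg r := by
  obtain ⟨m, hm⟩ := ray_eventually r 0
  by_cases h0 : 0 < (r.1 m).1
  · left
    refine ⟨m, fun k hk => ?_⟩
    induction k, hk using Nat.le_induction with
    | base => exact h0
    | succ k hk ih =>
      have h1 := hm (k + 1) (by omega)
      have h2 := ray_step r k
      rw [lt_abs] at h1
      omega
  · right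
    refine ⟨m, fun k hk => ?_⟩
    induction k, hk using Nat.le_induction with
    | base =>
      have h1 := hm m le_rfl
      rw [lt_abs] at h1
      omega
    | succ k hk ih =>
      have h1 := hm (k + 1) (by omega)
      have h2 := ray_step r k
      rw [lt_abs] at h1
      omega

theorem finset_bound (S : Finset (Vt t)) : ∃ N : ℤ, 0 ≤ N ∧ ∀ x ∈ S, |x.1| ≤ N := by
  refine ⟨∑ x ∈ S, |x.1|, Finset.sum_nonneg (fun _ _ => abs_nonneg _), fun x hx => ?_⟩
  exact Finset.single_le_sum (f := fun x : Vt t => |x.1|) (fun _ _ => abs_nonneg _) hx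

theorem pos_equiv (r s : Ray (Gt t)) (hr : Pos r) (hs : Pos s) : RayEquiv (Gt t) r s := by
  intro S
  obtain ⟨N, hN0, hN⟩ := finset_bound S
  obtain ⟨m1, h1⟩ := hr
  obtain ⟨m2, h2⟩ := hs
  obtain ⟨m3, h3⟩ := ray_eventually r N
  obtain ⟨m4, h4⟩ := ray_eventually s N
  have a1 : ∀ k, max m1 m3 ≤ k → N < (r.1 k).1 := by
    intro k hk
    have e1 := h1 k (le_trans (le_max_left _ _) hk)
    have e2 := h3 k (le_trans (le_max_right _ _) hk)
    rw [lt_abs] at e2
    omega
  have a2 : ∀ k, max m2 m4 ≤ k → N < (s.1 k).1 := by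
    intro k hk
    have e1 := h2 k (le_trans (le_max_left _ _) hk)
    have e2 := h4 k (le_trans (le_max_right _ _) hk)
    rw [lt_abs] at e2
    omega
  have hS : ∀ x : Vt t, N < x.1 → x ∉ S := by
    intro x hx hxS
    have := hN x hxS
    rw [abs_le] at this
    omega
  refine ⟨max m1 m3, max m2 m4, fun k hk => hS _ (a1 k hk), fun k hk => hS _ (a2 k hk), ?_⟩
  obtain ⟨p, hp⟩ := walk_above (r.1 (max m1 m3)) (s.1 (max m2 m4))
  refine ⟨p, fun x hx => hS x ?_⟩
  have := hp x hx
  have b1 := a1 _ le_rfl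
  have b2 := a2 _ le_rfl
  exact lt_of_lt_of_le (lt_min b1 b2) this

theorem neg_equiv (r s : Ray (Gt t)) (hr : Neg r) (hs : Neg s) : RayEquiv (Gt t) r s := by
  intro S
  obtain ⟨N, hN0, hN⟩ := finset_bound S
  obtain ⟨m1, h1⟩ := hr
  obtain ⟨m2, h2⟩ := hs
  obtain ⟨m3, h3⟩ := ray_eventually r N
  obtain ⟨m4, h4⟩ := ray_eventually s N
  have a1 : ∀ k, max m1 m3 ≤ k → (r.1 k).1 < -N := by
    intro k hk
    have e1 := h1 k (le_trans (le_max_left _ _) hk)
    have e2 := h3 k (le_trans (le_max_right _ _) hk)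
    rw [lt_abs] at e2
    omega
  have a2 : ∀ k, max m2 m4 ≤ k → (s.1 k).1 < -N := by
    intro k hk
    have e1 := h2 k (le_trans (le_max_left _ _) hk)
    have e2 := h4 k (le_trans (le_max_right _ _) hk)
    rw [lt_abs] at e2
    omega
  have hS : ∀ x : Vt t, x.1 < -N → x ∉ S := by
    intro x hx hxS
    have := hN x hxS
    rw [abs_le] at this
    omega
  refine ⟨max m1 m3, max m2 m4, fun k hk => hS _ (a1 k hk), fun k hk => hS _ (a2 k hk), ?_⟩
  obtain ⟨p, hp⟩ := walk_below (r.1 (max m1 m3)) (s.1 (max m2 m4))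
  refine ⟨p, fun x hx => hS x ?_⟩
  have := hp x hx
  have b1 := a1 _ le_rfl
  have b2 := a2 _ le_rfl
  exact lt_of_le_of_lt this (max_lt b1 b2)

theorem not_equiv (r s : Ray (Gt t)) (hr : Pos r) (hs : Neg s) : ¬ RayEquiv (Gt t) r s := by
  intro h
  let S : Finset (Vt t) := (layers_finite t 0).toFinset
  have hS : ∀ x : Vt t, x ∉ S → x.1 ≠ 0 := by
    intro x hx h0
    apply hx
    simp [S, h0]
  obtain ⟨m, n, h1, h2, p, hp⟩ := h S
  obtain ⟨m', hm'⟩ := hr
  obtain ⟨n', hn'⟩ := hs
  obtain ⟨q1, hq1⟩ := ray_walk' r (max m m') m m (le_max_left _ _) le_rfl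
  obtain ⟨q2, hq2⟩ := ray_walk' s n (max n n') n le_rfl (le_max_left _ _)
  have e1 : 0 < (r.1 (max m m')).1 := hm' _ (le_max_right _ _)
  have e2 : (s.1 (max n n')).1 < 0 := hn' _ (le_max_right _ _)
  have e3 := walk_sign ((q1.append p).append q2) ?_ e1
  · omega
  · intro x hx
    apply hS
    rw [SimpleGraph.Walk.mem_support_append_iff, SimpleGraph.Walk.mem_support_append_iff] at hx
    rcases hx with (hx | hx) | hx
    · obtain ⟨k, hk, rfl⟩ := hq1 x hx
      exact h1 k hk
    · exact hp x hx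
    · obtain ⟨k, hk, rfl⟩ := hq2 x hx
      exact h2 k hk

/-- the standard upward ray -/
def upRay (t : ℕ) : Ray (Gt t) :=
  ⟨fun n => ((n : ℤ), fun _ => (0, false)), by
    intro a b h
    have := congrArg Prod.fst h
    simpa using this, by
    intro n
    refine Or.inl ⟨by simp, ?_⟩
    rfl⟩

/-- the standard downward ray -/
def downRay (t : ℕ) : Ray (Gt t) :=
  ⟨fun n => (-(n : ℤ), fun _ => (0, false)), by
    intro a b h
    have := congrArg Prod.fst h
    simpa using this, by
    intro n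
    refine Or.inr (Or.inl ⟨by push_cast; ring, ?_⟩)
    rfl⟩

theorem twoEnded (t : ℕ) : TwoEnded (Gt t) := by
  have hup : Pos (upRay t) := ⟨1, fun k hk => by
    show 0 < (k : ℤ)
    omega⟩
  have hdown : Neg (downRay t) := ⟨1, fun k hk => by
    show -(k : ℤ) < 0
    omega⟩
  unfold TwoEnded Ends
  rw [Nat.card_eq_two_iff]
  refine ⟨Quotient.mk _ (upRay t), Quotient.mk _ (downRay t), ?_, ?_⟩
  · intro h
    exact not_equiv _ _ hup hdown (Quotient.exact h)
  · rw [Set.eq_univ_iff_forall]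
    intro x
    induction x using Quotient.inductionOn with
    | h r =>
      rcases pos_or_neg r with hr | hr
      · left
        exact Quotient.sound (pos_equiv _ _ hr hup)
      · right
        exact Quotient.sound (neg_equiv _ _ hr hdown)

end ends

/-! ### Vertex-transitivity -/

section trans

/-- the translation -/
def shiftFun (c : ℤ) (v : Vt t) : Vt t := (v.1 + c, v.2)

theorem shift_arc (c : ℤ) (u v : Vt t) : Arc (shiftFun c u) (shiftFun c v) ↔ Arc u v := by
  unfold Arc shiftFun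
  constructor
  · rintro ⟨h1, h2⟩
    exact ⟨by simp only at h1; omega, h2⟩
  · rintro ⟨h1, h2⟩
    exact ⟨by simp only; omega, h2⟩

theorem shift_tw (c : ℤ) (u v : Vt t) : Tw (shiftFun c u) (shiftFun c v) ↔ Tw u v := by
  unfold Tw shiftFun
  constructor
  · rintro ⟨h1, h2⟩
    exact ⟨by simp only at h1; omega, h2⟩
  · rintro ⟨h1, h2⟩
    exact ⟨by simp only; omega, h2⟩

/-- the translation as an automorphism -/
def shiftIso (c : ℤ) : Gt t ≃g Gt t where
  toFun := shiftFun c
  invFun := shiftFun (-c)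
  left_inv := by intro v; simp [shiftFun]
  right_inv := by intro v; simp [shiftFun]
  map_rel_iff' := by
    intro u v
    show (Arc _ _ ∨ Arc _ _ ∨ Tw _ _) ↔ (Arc u v ∨ Arc v u ∨ Tw u v)
    exact or_congr (shift_arc c u v) (or_congr (shift_arc c v u) (shift_tw c u v))

/-- a coordinatewise map -/
def coordFun (g : ℤ → X → X) (v : Vt t) : Vt t := (v.1, fun j => g (v.1 + j) (v.2 j))

theorem coord_arc (g : ℤ → X → X) (hg : ∀ k, Function.Injective (g k)) (u v : Vt t) :
    Arc (coordFun g u) (coordFun g v) ↔ Arc u v := by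
  unfold Arc coordFun
  simp only
  refine and_congr_right fun h1 => ?_
  rw [funext_iff, funext_iff]
  refine forall_congr' fun j => ?_
  simp only [Fin.tail, Fin.init, Fin.val_succ, Fin.val_castSucc]
  have h2 : u.1 + ((j.val + 1 : ℕ) : ℤ) = v.1 + (j.val : ℤ) := by
    rw [h1]
    push_cast
    ring
  rw [h2]
  exact (hg _).eq_iff

theorem coord_tw (g : ℤ → (P ≃g P)) (u v : Vt t) :
    Tw (coordFun (fun k => g k) u) (coordFun (fun k => g k) v) ↔ Tw u v := by
  unfold Tw coordFun
  simp only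
  refine and_congr_right fun h1 => ?_
  refine and_congr ?_ ?_
  · rw [funext_iff, funext_iff]
    refine forall_congr' fun j => ?_
    simp only [Fin.tail]
    rw [h1]
    exact (g _).injective.eq_iff
  · rw [h1]
    exact (g _).map_adj_iff

/-- coordinatewise automorphisms -/
def coordIso (g : ℤ → (P ≃g P)) : Gt t ≃g Gt t where
  toFun := coordFun (fun k => g k)
  invFun := coordFun (fun k => (g k).symm)
  left_inv := by intro v; simp [coordFun]
  right_inv := by intro v; simp [coordFun]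
  map_rel_iff' := by
    intro u v
    show (Arc _ _ ∨ Arc _ _ ∨ Tw _ _) ↔ (Arc u v ∨ Arc v u ∨ Tw u v)
    exact or_congr (coord_arc _ (fun k => (g k).injective) u v)
      (or_congr (coord_arc _ (fun k => (g k).injective) v u) (coord_tw g u v))

theorem vertexTransitive (t : ℕ) : VertexTransitive (Gt t) := by
  intro u v
  choose φ hφ using P_transitive
  let g : ℤ → (P ≃g P) := fun k =>
    if hk : 0 ≤ k - v.1 ∧ k - v.1 < t + 1 then
      φ (u.2 ⟨(k - v.1).toNat, by omega⟩) (v.2 ⟨(k - v.1).toNat, by omega⟩)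
    else φ (0, false) (0, false)
  refine ⟨(shiftIso (v.1 - u.1)).trans (coordIso g), ?_⟩
  show coordFun (fun k => g k) (shiftFun (v.1 - u.1) u) = v
  have h1 : u.1 + (v.1 - u.1) = v.1 := by ring
  refine Prod.ext ?_ (funext fun j => ?_)
  · simp only [coordFun, shiftFun]
    exact h1
  · simp only [coordFun, shiftFun]
    rw [h1]
    have hj := j.2
    have h2 : g (v.1 + (j.val : ℤ)) = φ (u.2 j) (v.2 j) := by
      simp only [g]
      rw [dif_pos (by omega)]
      have h3 : (⟨(v.1 + (j.val : ℤ) - v.1).toNat, by omega⟩ : Fin (t + 1)) = j := by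
        apply Fin.ext
        show (v.1 + (j.val : ℤ) - v.1).toNat = j.val
        omega
      rw [h3]
    rw [h2]
    exact hφ _ _

end trans

/-! ### Free actions -/

section free

/-- An involution preserving the layers fixes a vertex. -/
theorem involution_fixes (ht : 1 ≤ t) (g : Gt t ≃g Gt t) (h2 : ∀ v, g (g v) = v)
    (hl : ∀ v, (g v).1 = v.1) : ∃ v, g v = v := by
  have hfix : ∀ k : ℤ, ∃ x : X, loc g k x = x := by
    intro k
    refine P_fixed (loc g k) ?_ (loc_adj ht g k)
    intro x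
    have h1 := apply_zero ht g (g ((k, fun _ => x) : Vt t))
    rw [h2, hl] at h1
    exact h1.symm
  choose p hp using hfix
  refine ⟨(0, fun j => p j), Prod.ext (hl _) (funext fun j => ?_)⟩
  have := apply_loc ht g j.1 j.2 ((0, fun j => p j) : Vt t)
  simp only [Fin.eta, zero_add] at this
  rw [this]
  exact hp _

theorem card_words (t : ℕ) : Fintype.card (Fin (t + 1) → X) = 10 ^ (t + 1) := by
  rw [Fintype.card_fun]
  simp only [Fintype.card_fin]
  rfl

theorem shift_const (ht : 1 ≤ t) (g : Gt t ≃g Gt t) (u v : Vt t) :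
    (g v).1 - v.1 = (g u).1 - u.1 := by
  obtain ⟨p⟩ := (connected t).preconnected u v
  induction p with
  | nil => rfl
  | cons h p ih => rw [ih, walk_shift ht g _ _ h]

theorem lower_bound (ht : 1 ≤ t) (n : ℕ) (h : IsNCayley (Gt t) n) : 2 ^ (t + 1) ≤ n := by
  classical
  obtain ⟨Γ, hfree, f, hsurj, hf⟩ := h
  -- the layer-preserving subgroup
  let K : Subgroup (Gt t ≃g Gt t) :=
    { carrier := {g | g ∈ Γ ∧ ∀ v, (g v).1 = v.1}
      mul_mem' := by
        rintro a b ⟨ha, ha'⟩ ⟨hb, hb'⟩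
        refine ⟨Γ.mul_mem ha hb, fun v => ?_⟩
        show (a (b v)).1 = v.1
        rw [ha', hb']
      one_mem' := ⟨Γ.one_mem, fun v => rfl⟩
      inv_mem' := by
        rintro a ⟨ha, ha'⟩
        refine ⟨Γ.inv_mem ha, fun v => ?_⟩
        have := ha' (a⁻¹ v)
        rw [← this]
        show (a (a.symm v)).1 = _
        simp }
  have hKΓ : ∀ g ∈ K, g ∈ Γ := fun g hg => hg.1
  have hKl : ∀ g ∈ K, ∀ v, (g v).1 = v.1 := fun g hg => hg.2
  have hΓK : ∀ g ∈ Γ, ∀ v, (g v).1 = v.1 → g ∈ K := by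
    intro g hg v hv
    refine ⟨hg, fun u => ?_⟩
    have := shift_const ht g v u
    omega
  let emb : (Fin (t + 1) → X) → Vt t := fun w => (0, w)
  -- orbit maps are injective
  let φ : (Fin (t + 1) → X) → K → (Fin (t + 1) → X) := fun w g => (g.1 (emb w)).2
  have hφ : ∀ w (g : K), g.1 (emb w) = emb (φ w g) := by
    intro w g
    exact Prod.ext (hKl g.1 g.2 _) rfl
  have hφinj : ∀ w, Function.Injective (φ w) := by
    intro w a b hab
    have h1 : a.1 (emb w) = b.1 (emb w) := by rw [hφ, hφ, hab]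
    have h2 : (b.1⁻¹ * a.1) (emb w) = emb w := by
      show b.1.symm (a.1 (emb w)) = emb w
      rw [h1]
      simp
    have h3 := hfree _ (Γ.mul_mem (Γ.inv_mem (hKΓ _ b.2)) (hKΓ _ a.2)) _ h2
    have h4 : a.1 = b.1 := by
      have := inv_mul_eq_one.mp h3
      exact this.symm
    exact Subtype.ext h4
  have : Finite K := Finite.of_injective _ (hφinj (fun _ => (0, false)))
  have : Fintype K := Fintype.ofFinite K
  -- fibres
  have hfib : ∀ w, (Finset.univ.filter (fun w' => f (emb w') = f (emb w))).card =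
      Fintype.card K := by
    intro w
    have h1 : Finset.univ.filter (fun w' => f (emb w') = f (emb w)) =
        Finset.univ.image (φ w) := by
      ext w'
      simp only [Finset.mem_filter, Finset.mem_univ, true_and, Finset.mem_image]
      constructor
      · intro h
        obtain ⟨g, hg, hgw⟩ := (hf _ _).mp h.symm
        have hgK : g ∈ K := hΓK g hg (emb w) (by rw [hgw])
        refine ⟨⟨g, hgK⟩, ?_⟩
        show (g (emb w)).2 = w'
        rw [hgw]
      · rintro ⟨g, rfl⟩
        refine ((hf _ _).mpr ⟨g.1, hKΓ _ g.2, ?_⟩).symm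
        exact hφ w g
    rw [h1, Finset.card_image_of_injective _ (hφinj w)]
    exact Finset.card_univ
  have hsum : 10 ^ (t + 1) = (Finset.univ.image (fun w => f (emb w))).card * Fintype.card K := by
    rw [← card_words t, ← Finset.card_univ,
      Finset.card_eq_sum_card_image (fun w => f (emb w)) Finset.univ]
    rw [Finset.sum_const_nat]
    intro q hq
    simp only [Finset.mem_image, Finset.mem_univ, true_and] at hq
    obtain ⟨w, rfl⟩ := hq
    exact hfib w
  -- no element of order two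
  have hodd : ¬ 2 ∣ Fintype.card K := by
    intro hdvd
    have : Fact (Nat.Prime 2) := ⟨Nat.prime_two⟩
    obtain ⟨g, hg⟩ := exists_prime_orderOf_dvd_card 2 hdvd
    have h1 : g * g = 1 := by
      have := pow_orderOf_eq_one g
      rw [hg, pow_two] at this
      exact this
    have h2 : ∀ v, g.1 (g.1 v) = v := by
      intro v
      have := congrArg (fun a : K => a.1 v) h1
      exact this
    obtain ⟨v, hv⟩ := involution_fixes ht g.1 h2 (hKl _ g.2)
    have h3 := hfree _ (hKΓ _ g.2) v hv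
    have h4 : g = 1 := Subtype.ext h3
    rw [h4, orderOf_one] at hg
    norm_num at hg
  have hcop : Nat.Coprime (Fintype.card K) (2 ^ (t + 1)) := by
    apply Nat.Coprime.pow_right
    rw [Nat.coprime_comm]
    exact (Nat.Prime.coprime_iff_not_dvd Nat.prime_two).mpr hodd
  have h10 : 2 ^ (t + 1) * 5 ^ (t + 1) = 10 ^ (t + 1) := by
    rw [← mul_pow]
    norm_num
  have hdvd : Fintype.card K ∣ 2 ^ (t + 1) * 5 ^ (t + 1) := by
    rw [h10, hsum]
    exact Dvd.intro_left _ rfl
  have hle : Fintype.card K ≤ 5 ^ (t + 1) :=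
    Nat.le_of_dvd (by positivity) (hcop.dvd_of_dvd_mul_left hdvd)
  have hm : (Finset.univ.image (fun w => f (emb w))).card ≤ n := by
    have := Finset.card_le_univ (Finset.univ.image (fun w => f (emb w)))
    simpa using this
  have hfin : 2 ^ (t + 1) * 5 ^ (t + 1) ≤ n * 5 ^ (t + 1) := by
    rw [h10, hsum]
    exact Nat.mul_le_mul hm hle
  exact Nat.le_of_mul_le_mul_right hfin (by positivity)

end free

/-- For `k = 23` and every `n` there is a connected `k`-regular vertex-transitive graph with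
exactly two ends that is not `m`-Cayley for any `m ≤ n`.  Hence there is no function `f` as in
Q1. -/
theorem result :
    (∀ n : ℕ, ∃ (V : Type) (G : SimpleGraph V), G.Connected ∧ Regular G 23 ∧
      VertexTransitive G ∧ TwoEnded G ∧ ∀ m ≤ n, ¬ IsNCayley G m) ∧
    ¬ ∃ f : ℕ → ℕ, ∀ (k : ℕ) (V : Type) (G : SimpleGraph V), G.Connected → Regular G k →
      VertexTransitive G → TwoEnded G → IsNCayley G (f k) := by
  have main : ∀ n : ℕ, ∃ (V : Type) (G : SimpleGraph V), G.Connected ∧ Regular G 23 ∧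
      VertexTransitive G ∧ TwoEnded G ∧ ∀ m ≤ n, ¬ IsNCayley G m := by
    intro n
    refine ⟨Vt (n + 1), Gt (n + 1), connected _, regular _, vertexTransitive _, twoEnded _, ?_⟩
    intro m hm h
    have h1 := lower_bound (by omega) m h
    have h2 : n + 1 + 1 < 2 ^ (n + 1 + 1) := Nat.lt_two_pow_self
    omega
  refine ⟨main, ?_⟩
  rintro ⟨f, hf⟩
  obtain ⟨V, G, h1, h2, h3, h4, h5⟩ := main (f 23)
  exact h5 (f 23) le_rfl (hf 23 V G h1 h2 h3 h4)

end Pool.Agent.Results.MP_e6b5d0_co.UnboundedCayley
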